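import Pool.Agent.Helper79_WRA.Stmt
import Pool.Agent.Helper79_WRA.Basic

/-!
WRA, module MARKS: descending induction over the subgroups of the top group.
-/

open scoped BigOperators

noncomputable section

namespace Pool.Agent.Helper79_WRA.H69

open Pool.Agent.Helper51_AWC Pool.Agent.Helper79_WRA

open Classical in
/-- descending induction -/
theorem desc {X 𝒰 : Type*} [PartialOrder 𝒰] [Fintype 𝒰] (S : Finset X) (w : X → ℤ)
    (τ : X → 𝒰) (U0 : 𝒰)
    (h : ∀ U, U0 ≤ U → ∑ x ∈ S.filter (fun x => U ≤ τ x), w x = 0) :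
    ∀ U, U0 ≤ U → ∑ x ∈ S.filter (fun x => τ x = U), w x = 0 := by
  intro U
  induction U using WellFoundedGT.induction with
  | ind U ih =>
    intro hU
    have h1 := h U hU
    have h2 : S.filter (fun x => U ≤ τ x) =
        S.filter (fun x => τ x = U) ∪ S.filter (fun x => U < τ x) := by
      ext x
      simp only [Finset.mem_filter, Finset.mem_union]
      constructor
      · rintro ⟨hx, hle⟩
        rcases hle.eq_or_lt with h | h
        · exact Or.inl ⟨hx, h.symm⟩
        · exact Or.inr ⟨hx, h⟩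
      · rintro (⟨hx, h⟩ | ⟨hx, h⟩)
        · exact ⟨hx, h.ge⟩
        · exact ⟨hx, h.le⟩
    have hd : Disjoint (S.filter (fun x => τ x = U)) (S.filter (fun x => U < τ x)) := by
      rw [Finset.disjoint_left]
      intro x hx hx'
      rw [Finset.mem_filter] at hx hx'
      exact absurd hx.2 hx'.2.ne'
    rw [h2, Finset.sum_union hd] at h1
    have h3 : ∑ x ∈ S.filter (fun x => U < τ x), w x = 0 := by
      rw [← Finset.sum_fiberwise_of_maps_to (s := S.filter (fun x => U < τ x))
        (t := Finset.univ) (g := τ) (fun x _ => Finset.mem_univ _)]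
      apply Finset.sum_eq_zero
      intro U' _
      by_cases hlt : U < U'
      · have h4 := ih U' hlt (hU.trans hlt.le)
        rw [← h4]
        apply Finset.sum_congr _ (fun _ _ => rfl)
        ext x
        simp only [Finset.mem_filter]
        constructor
        · rintro ⟨⟨hx, _⟩, h⟩
          exact ⟨hx, h⟩
        · rintro ⟨hx, h⟩
          exact ⟨⟨hx, h ▸ hlt⟩, h⟩
      · apply Finset.sum_eq_zero
        intro x hx
        simp only [Finset.mem_filter] at hx
        exact absurd (hx.2 ▸ hx.1.2) hlt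
    rw [h3, add_zero] at h1
    exact h1

open Classical in
/-- the abstract form of the argument -/
theorem marks_aux {X 𝒰 B Y : Type*} [PartialOrder 𝒰] [Fintype 𝒰] (S : Finset X) (w : X → ℤ)
    (τ : X → 𝒰) (lab : X → B) (Q : B → Prop) (Lam : 𝒰 → Finset Y) (good : X → Y → Prop)
    (size : 𝒰 → ℤ)
    (h : ∀ U0, ∀ y ∈ Lam U0, ∀ U, U0 ≤ U → ∀ b, Q b →
      ∑ x ∈ S.filter (fun x => U ≤ τ x ∧ lab x = b ∧ good x y), w x = 0) :
    ∑ x ∈ S.filter (fun x => Q (lab x)),
      w x * size (τ x) * (((Lam (τ x)).filter (fun y => good x y)).card : ℤ) = 0 := by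
  rw [← Finset.sum_fiberwise_of_maps_to (s := S.filter (fun x => Q (lab x)))
    (t := Finset.univ) (g := τ) (fun x _ => Finset.mem_univ _)]
  apply Finset.sum_eq_zero
  intro U _
  have e1 : ∀ x ∈ (S.filter (fun x => Q (lab x))).filter (fun x => τ x = U),
      w x * size (τ x) * (((Lam (τ x)).filter (fun y => good x y)).card : ℤ) =
        ∑ y ∈ Lam U, (if good x y then w x * size U else 0) := by
    intro x hx
    rw [Finset.mem_filter] at hx
    rw [hx.2, ← Finset.sum_filter, Finset.sum_const, nsmul_eq_mul]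
    ring
  rw [Finset.sum_congr rfl e1, Finset.sum_comm]
  apply Finset.sum_eq_zero
  intro y hy
  rw [← Finset.sum_filter]
  rw [← Finset.sum_mul]
  have e2 : ∑ x ∈ ((S.filter (fun x => Q (lab x))).filter (fun x => τ x = U)).filter
      (fun x => good x y), w x = 0 := by
    rw [← Finset.sum_fiberwise_of_maps_to
      (s := ((S.filter (fun x => Q (lab x))).filter (fun x => τ x = U)).filter
        (fun x => good x y))
      (t := (S.filter (fun x => Q (lab x))).image lab) (g := lab)]
    · apply Finset.sum_eq_zero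
      intro b hb
      obtain ⟨x0, hx0, rfl⟩ := Finset.mem_image.1 hb
      rw [Finset.mem_filter] at hx0
      have h5 := desc (S.filter (fun x => lab x = lab x0 ∧ good x y)) w τ U (by
        intro U' hU'
        rw [← h U y hy U' hU' (lab x0) hx0.2]
        apply Finset.sum_congr _ (fun _ _ => rfl)
        ext x
        simp only [Finset.mem_filter]
        tauto) U le_rfl
      rw [← h5]
      apply Finset.sum_congr _ (fun _ _ => rfl)
      ext x
      simp only [Finset.mem_filter]
      constructor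
      · rintro ⟨⟨⟨⟨hx, _⟩, h1⟩, h2⟩, h3⟩
        exact ⟨⟨hx, h3, h2⟩, h1⟩
      · rintro ⟨⟨hx, h3, h2⟩, h1⟩
        exact ⟨⟨⟨⟨hx, by rw [h3]; exact hx0.2⟩, h1⟩, h2⟩, h3⟩
    · intro x hx
      simp only [Finset.mem_filter] at hx
      exact Finset.mem_image_of_mem _ (Finset.mem_filter.2 hx.1.1)
  rw [e2, zero_mul]

open Classical in
theorem marks : MarksStmt := by
  intro ℓ _ G Δ K I _ _ _ _ _ _ M Φ ws hF hM
  have : Fintype (Subgroup K) := Fintype.ofFinite _
  let S : Finset (Σ _ : Finset (Δ → Subgroup G), (Δ → G → ℂ)) :=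
    (chainsOn (boxes ℓ G Δ) (fun _ => ⊥)).sigma (fun v => charsOf v)
  let w : (Σ _ : Finset (Δ → Subgroup G), (Δ → G → ℂ)) → ℤ := fun x =>
    (-1) ^ (x.1.card + 1) * ∏ j, (Nat.card (colStab x.1 j) : ℤ)
  let τ : (Σ _ : Finset (Δ → Subgroup G), (Δ → G → ℂ)) → Subgroup K := fun x =>
    topSt K x.1 x.2
  let lab : (Σ _ : Finset (Δ → Subgroup G), (Δ → G → ℂ)) → (Δ → G → FF M) := fun x j =>
    labF M (x.2 j)
  let Q : (Δ → G → FF M) → Prop := fun β => ∃ j, ∃ χ ∈ Irr G, LargeDefect ℓ M χ ∧
    β j = labF M χ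
  let Lam : Subgroup K → Finset (K → ℂ) := fun U => (IrrS_finite U).toFinset
  let good : (Σ _ : Finset (Δ → Subgroup G), (Δ → G → ℂ)) → (K → ℂ) → Prop := fun x lam =>
    Good M Φ ws (eta x.1 x.2 lam)
  have key := marks_aux S w τ lab Q Lam good (fun U => (Nat.card U : ℤ)) (by
    intro U0 lam hlam U hU β hβ
    obtain ⟨j₀, χ, hχ, hL, hβ⟩ := hβ
    have hlam' : lam ∈ IrrS U0 := by
      simpa [Lam] using hlam
    let P : (Δ → (G → FF M) × FF M) → Prop := fun D =>
      ∃ (v' : Finset (Δ → Subgroup G)) (α' : Δ → G → ℂ), IsChars v' α' ∧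
        U0 ≤ topSt K v' α' ∧ dat M v' α' = D ∧ Good M Φ ws (eta v' α' lam)
    have h1 := hM U j₀ β P ⟨χ, hχ, hL, hβ⟩
    rw [← h1]
    refine (Finset.sum_congr (s₂ := (chainsOn (boxes ℓ G Δ) (fun _ => ⊥)).sigma
      (fun v => (charsOf v).filter (fun α => U ≤ topSt K v α ∧
        (∀ j, labF M (α j) = β j) ∧ P (dat M v α)))) (g := w) ?_ (fun _ _ => rfl)).trans ?_
    · ext ⟨v, α⟩
      simp only [S, τ, lab, good, Finset.mem_filter, Finset.mem_sigma]
      constructor
      · rintro ⟨⟨hv, hα⟩, h2, h3, h4⟩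
        refine ⟨hv, hα, h2, fun j => congrFun h3 j, ?_⟩
        exact ⟨v, α, mem_charsOf.1 hα, hU.trans h2, rfl, h4⟩
      · rintro ⟨hv, hα, h2, h3, v', α', h5, h6, h7, h8⟩
        refine ⟨⟨hv, hα⟩, h2, funext h3, ?_⟩
        intro z
        refine (hF v v' α α' U0 lam z (mem_charsOf.1 hα) h5 (hU.trans h2) h6 hlam' ?_).trans
          (h8 z)
        intro j
        exact (congrFun h7 j).symm
    · rw [Finset.sum_sigma]
      apply Finset.sum_congr rfl
      intro v _
      rw [Finset.mul_sum])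
  rw [← key]
  symm
  refine (Finset.sum_congr (s₂ := (chainsOn (boxes ℓ G Δ) (fun _ => ⊥)).sigma
    (fun v => (charsOf v).filter (fun α => ∃ j, PosL ℓ M (α j)))) ?_
    (fun _ _ => rfl)).trans ?_
  · ext ⟨v, α⟩
    simp only [S, lab, Q, Finset.mem_filter, Finset.mem_sigma, and_assoc]
    rfl
  rw [Finset.sum_sigma]
  apply Finset.sum_congr rfl
  intro v _
  rw [Finset.mul_sum]
  apply Finset.sum_congr rfl
  intro α _
  have e3 : {lam | lam ∈ IrrS (topSt K v α) ∧ Good M Φ ws (eta v α lam)}.ncard =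
      ((Lam (topSt K v α)).filter (fun y => good ⟨v, α⟩ y)).card := by
    rw [← Set.ncard_coe_finset]
    congr 1
    ext lam
    simp [Lam, good]
  rw [e3]
  simp only [w, τ]
  ring

end Pool.Agent.Helper79_WRA.H69
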