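import Pool.Agent.Helper79_WRA.Stmt
import Pool.Agent.Helper79_WRA.Basic

/-!
WRA, module ALG: the algebra homomorphisms on the centre of the group algebra modulo `M` are
central characters of irreducible characters.
-/

open scoped BigOperators
open Module

noncomputable section

namespace Pool.Agent.Helper79_WRA.H69

open Pool.Agent.Helper51_AWC Pool.Agent.Helper79_WRA

variable {G : Type} [Group G]

theorem conv_eq [Fintype G] (a b : G → ℂ) (x : G) : conv a b x = ∑ y, a y * b (y⁻¹ * x) := by
  unfold conv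
  rw [finsum_eq_sum_of_fintype]

theorem conv_class [Finite G] {a b : G → ℂ} (ha : ∀ x y, a (y * x * y⁻¹) = a x)
    (hb : ∀ x y, b (y * x * y⁻¹) = b x) (x g : G) : conv a b (g * x * g⁻¹) = conv a b x := by
  have := Fintype.ofFinite G
  rw [conv_eq, conv_eq, ← Equiv.sum_comp (MulAut.conj g).toEquiv]
  apply Finset.sum_congr rfl
  intro y _
  simp only [MulEquiv.toEquiv_eq_coe, EquivLike.coe_coe, MulAut.conj_apply]
  rw [ha]
  congr 1
  rw [← hb (y⁻¹ * x) g]
  congr 1
  group

theorem conv_integral [Finite G] {a b : G → ℂ} (ha : ∀ x, IsIntegral ℤ (a x))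
    (hb : ∀ x, IsIntegral ℤ (b x)) (x : G) : IsIntegral ℤ (conv a b x) := by
  have := Fintype.ofFinite G
  rw [conv_eq]
  exact IsIntegral.sum _ (fun y _ => (ha y).mul (hb _))

theorem act_conv [Fintype G] {V : Type*} [AddCommGroup V] [Module ℂ V]
    (ρ : Representation ℂ G V) (a b : G → ℂ) :
    act ρ (conv a b) = act ρ a * act ρ b := by
  unfold act
  simp_rw [conv_eq, Finset.sum_smul]
  rw [Finset.sum_comm, Finset.sum_mul]
  apply Finset.sum_congr rfl
  intro y _
  rw [Finset.mul_sum, ← Equiv.sum_comp (Equiv.mulLeft y)]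
  apply Finset.sum_congr rfl
  intro x _
  simp only [Equiv.coe_mulLeft, inv_mul_cancel_left, map_mul]
  rw [smul_mul_smul_comm]

theorem val_of_scalar [Fintype G] {n : ℕ} (ρ : Representation ℂ G (Fin n → ℂ))
    (h1 : ρ.character 1 ≠ 0) (z : G → ℂ) (c : ℂ) (hc : act ρ z = c • LinearMap.id) :
    val z ρ.character = c := by
  rw [val_eq, ← act_trace, hc, map_smul, smul_eq_mul]
  have : LinearMap.trace ℂ (Fin n → ℂ) LinearMap.id = ρ.character 1 := by
    rw [Representation.character, map_one]; rfl
  rw [this, mul_div_assoc, div_self h1, mul_one]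

theorem val_conv [Finite G] {χ : G → ℂ} (hχ : χ ∈ Irr G) {a b : G → ℂ}
    (ha : ∀ x y, a (y * x * y⁻¹) = a x) (hb : ∀ x y, b (y * x * y⁻¹) = b x) :
    val (conv a b) χ = val a χ * val b χ := by
  have := Fintype.ofFinite G
  have h1 := irr_one_ne hχ
  obtain ⟨n, ρ, hρ, rfl⟩ := hχ
  obtain ⟨c, hc⟩ := act_scalar ρ a ha
  obtain ⟨d, hd⟩ := act_scalar ρ b hb
  rw [val_of_scalar ρ h1 a c hc, val_of_scalar ρ h1 b d hd]
  apply val_of_scalar ρ h1
  rw [act_conv, hc, hd, smul_mul_smul_comm]
  rfl

theorem val_integral [Finite G] {χ : G → ℂ} (hχ : χ ∈ Irr G) {a : G → ℂ}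
    (ha : ∀ x y, a (y * x * y⁻¹) = a x) (hi : ∀ x, IsIntegral ℤ (a x)) :
    IsIntegral ℤ (val a χ) := by
  classical
  have := Fintype.ofFinite G
  have h : val a χ = ∑ C : ConjClasses G,
      a (Quotient.out C) * omega (MonoidHom.id G) χ (Quotient.out C) := by
    rw [val_eq]
    simp_rw [omega_eq]
    rw [← Finset.sum_fiberwise (s := Finset.univ) (g := fun t : G => ConjClasses.mk t)]
    rw [Finset.sum_div]
    apply Finset.sum_congr rfl
    intro C _
    rw [← mul_div_assoc, Finset.mul_sum, Finset.sum_filter]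
    congr 1
    apply Finset.sum_congr rfl
    intro t _
    have hout : ConjClasses.mk (Quotient.out C) = C := Quotient.out_eq C
    by_cases ht : ConjClasses.mk t = C
    · have hct : IsConj (Quotient.out C) t := by
        rw [← ConjClasses.mk_eq_mk_iff_isConj, hout, ht]
      rw [if_pos ht, if_pos (by simpa using hct)]
      congr 1
      obtain ⟨g, hg⟩ := isConj_iff.1 hct
      rw [← hg, ha]
    · have hct : ¬ IsConj (Quotient.out C) t := by
        intro h
        apply ht
        rw [← hout, ConjClasses.mk_eq_mk_iff_isConj]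
        exact h.symm
      rw [if_neg ht, if_neg (by simpa using hct), mul_zero]
  rw [h]
  exact IsIntegral.sum _ (fun C _ => (hi _).mul (omega_integral _ hχ _))

open Classical in
/-- the unit of the group algebra -/
def delta (G : Type) [Group G] : G → ℂ := fun x => if x = 1 then 1 else 0

theorem delta_class (x y : G) : delta G (y * x * y⁻¹) = delta G x := by
  unfold delta
  congr 1
  rw [eq_iff_iff]
  constructor
  · intro h
    have := congrArg (fun z => y⁻¹ * z * y) h
    simpa [mul_assoc] using this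
  · rintro rfl; simp

theorem delta_integral (x : G) : IsIntegral ℤ (delta G x) := by
  unfold delta
  split_ifs
  · exact isIntegral_one
  · exact isIntegral_zero

theorem val_sub [Finite G] (a b χ : G → ℂ) : val (a - b) χ = val a χ - val b χ := by
  have := Fintype.ofFinite G
  rw [val_eq, val_eq, val_eq, ← sub_div, ← Finset.sum_sub_distrib]
  congr 1
  apply Finset.sum_congr rfl
  intro x _
  rw [Pi.sub_apply, sub_mul]

theorem val_smul_delta [Finite G] (c : ℂ) {χ : G → ℂ} (h : χ 1 ≠ 0) :
    val (c • delta G) χ = c := by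
  have := Fintype.ofFinite G
  rw [val_eq]
  have : ∑ t, (c • delta G) t * χ t = c * χ 1 := by
    rw [Finset.sum_eq_single_of_mem 1 (Finset.mem_univ _)]
    · simp [delta]
    · intro t _ ht
      simp [delta, ht]
  rw [this, mul_div_assoc, div_self h, mul_one]

/-- the class functions with integral values -/
def IC (a : G → ℂ) : Prop := (∀ x y, a (y * x * y⁻¹) = a x) ∧ ∀ x, IsIntegral ℤ (a x)

theorem alg : AlgStmt := by
  intro M hM G _ _ W hW1 hW2 hW3
  classical
  have := Fintype.ofFinite G
  have hprime : M.IsPrime := hM.isPrime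
  by_contra hcon
  push Not at hcon
  have hδ : Cong M (W (delta G)) 1 := hW3 _ (by intro x hx; simp [delta, hx]) (by simp [delta])
  have hδi : IsIntegral ℤ (W (delta G)) := hW1 _ delta_class delta_integral
  -- the element for one character
  have hz : ∀ χ ∈ Irr G, ∃ z : G → ℂ, IC z ∧ val z χ = 0 ∧ ¬ Cong M (W z) 0 := by
    intro χ hχ
    obtain ⟨a, ha, hai, hn⟩ := hcon χ hχ
    have hv := val_integral hχ ha hai
    refine ⟨a - (val a χ) • delta G, ⟨?_, ?_⟩, ?_, ?_⟩
    · intro x y
      simp only [Pi.sub_apply, Pi.smul_apply, ha, delta_class]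
    · intro x
      simp only [Pi.sub_apply, Pi.smul_apply, smul_eq_mul]
      exact (hai x).sub (hv.mul (delta_integral x))
    · rw [val_sub, val_smul_delta _ (irr_one_ne hχ), sub_self]
    · intro h
      apply hn
      rw [map_sub, map_smul, smul_eq_mul] at h
      have h1 : Cong M (val a χ * W (delta G)) (val a χ * 1) := hδ.mul_left hv
      have h2 := h.add h1
      rw [sub_add_cancel, zero_add, mul_one] at h2
      exact h2
  -- the product
  have hprod : ∀ S : Finset (G → ℂ), (∀ χ ∈ S, χ ∈ Irr G) →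
      ∃ z : G → ℂ, IC z ∧ (∀ χ ∈ S, val z χ = 0) ∧ ¬ Cong M (W z) 0 := by
    intro S
    induction S using Finset.induction_on with
    | empty =>
      intro _
      refine ⟨delta G, ⟨delta_class, delta_integral⟩, by simp, ?_⟩
      intro h
      exact one_not_cong (M := M) (hδ.symm.trans h)
    | insert χ S hχS ih =>
      intro hS
      obtain ⟨z, hz1, hz2, hz3⟩ := ih (fun ψ hψ => hS ψ (Finset.mem_insert_of_mem hψ))
      have hχ := hS χ (Finset.mem_insert_self _ _)
      obtain ⟨y, hy1, hy2, hy3⟩ := hz χ hχ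
      refine ⟨conv z y, ⟨conv_class hz1.1 hy1.1, conv_integral hz1.2 hy1.2⟩, ?_, ?_⟩
      · intro ψ hψ
        have hψI := hS ψ hψ
        rw [val_conv hψI hz1.1 hy1.1]
        rcases Finset.mem_insert.1 hψ with rfl | h
        · rw [hy2, mul_zero]
        · rw [hz2 ψ h, zero_mul]
      · intro h
        have h1 := (hW2 z y hz1.1 hz1.2 hy1.1 hy1.2).symm.trans h
        rcases cong_mul_zero (hW1 z hz1.1 hz1.2) (hW1 y hy1.1 hy1.2) h1 with h2 | h2
        · exact hz3 h2
        · exact hy3 h2
  obtain ⟨z, hz1, hz2, hz3⟩ := hprod (irr_finite' (G := G)).toFinset (by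
    intro χ hχ
    simpa using hχ)
  have hz0 : z = 0 := by
    apply irr_complete z hz1.1
    intro χ hχ
    have h1 := hz2 χ (by simpa using hχ)
    rw [val_eq, div_eq_zero_iff] at h1
    exact h1.resolve_right (irr_one_ne hχ)
  apply hz3
  rw [hz0, map_zero]
  exact Cong.refl 0

end Pool.Agent.Helper79_WRA.H69
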